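import Pool.Agent.Y316.EV.Fin
import Pool.Agent.Y316.EV.Big
import Pool.Agent.Z864.RT.Relt
import Pool.Agent.Y705.EVB.Bern
import Pool.Agent.Y761.EV.Model

set_option autoImplicit false

/-!
# A sofic group and a sofic approximation whose free ergodic actions have entropy `-∞` or `+∞` only

The definitions are in `Pool/Agent/Y316/PC/Defs.lean` (`LocalSpace`, `IsSofic`, `soficEntropy`,
`IsGenerating`) and `Pool/Agent/Y316/EV/Fin.lean` (`FreeValue`, `FreeErgodicValue`,
`baseEntropy`).
-/

namespace Pool.Agent.Results.MP_b3b1c6_an.EntropyGap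

open MeasureTheory Set Filter Topology Pool.Agent.Y316.PC Pool.Agent.Y316.EV

/-- There are a noncompact lcsc group `G` with bi-invariant Haar measure and a sofic approximation
to `G` such that the base entropy is `-∞`, every essentially free pmp action has entropy `-∞` or
`+∞`, the essentially free ergodic actions attain exactly the values `-∞` and `+∞`, and hence no
real number `t` (each is `≥` the base entropy) is the entropy of an essentially free ergodic
action. -/
theorem result :
    ∃ (G : Type) (_ : Group G) (_ : TopologicalSpace G) (_ : IsTopologicalGroup G)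
      (_ : T2Space G) (_ : LocallyCompactSpace G) (_ : SecondCountableTopology G)
      (_ : MeasurableSpace G) (_ : BorelSpace G) (haar : Measure G)
      (M : ℕ → Type) (_ : ∀ i, TopologicalSpace (M i)) (_ : ∀ i, MeasurableSpace (M i))
      (S : ∀ i, LocalSpace G (M i)) (v : ∀ i, Measure (M i)),
      NoncompactSpace G ∧ haar.IsHaarMeasure ∧ haar.IsMulRightInvariant ∧
      (∀ i, T2Space (M i) ∧ LocallyCompactSpace (M i) ∧ SecondCountableTopology (M i) ∧
        BorelSpace (M i)) ∧
      IsSofic haar S v ∧ baseEntropy S v = ⊥ ∧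
      (∀ t, FreeValue S v t → t = ⊥ ∨ t = ⊤) ∧ {t | FreeErgodicValue S v t} = {⊥, ⊤} ∧
      ∀ t : ℝ, baseEntropy S v ≤ (t : EReal) ∧ ¬ FreeErgodicValue S v (t : EReal) :=
  main Pool.Agent.Z864.RT.relt (big Pool.Agent.Y705.EVB.bern Pool.Agent.Y761.EV.model)

end Pool.Agent.Results.MP_b3b1c6_an.EntropyGap
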